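import Mathlib

/-!
A Singer cycle (a cyclic subgroup of `GL(n,q)` acting simply transitively on nonzero vectors) has
the rank property of the problem for EVERY `n ≥ 2` and EVERY finite field.  Since it is
commutative it does not contain `SL(n,q)`.
-/

namespace Pool.Agent.Results.MP_6598fd_al.SingerRankProperty

open Matrix

/-- The rank property of the problem: for every singular matrix `a` there is a `g ∈ G` with
`rank (a g a) = rank a`. -/
def RankProperty {F : Type*} [Field F] {n : ℕ} (G : Subgroup (GL (Fin n) F)) : Prop :=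
  ∀ a : Matrix (Fin n) (Fin n) F, a.det = 0 →
    ∃ g ∈ G, (a * (g : Matrix (Fin n) (Fin n) F) * a).rank = a.rank

/-- `G` contains `SL(n,F)`. -/
def ContainsSL {F : Type*} [Field F] {n : ℕ} (G : Subgroup (GL (Fin n) F)) : Prop :=
  ∀ s : Matrix.SpecialLinearGroup (Fin n) F, (s : GL (Fin n) F) ∈ G

section

variable {F : Type*} [Field F] {n : ℕ}

lemma rank_mul_mul_eq (a g : Matrix (Fin n) (Fin n) F)
    (h : ∀ x, a *ᵥ (g *ᵥ (a *ᵥ x)) = 0 → a *ᵥ x = 0) :
    (a * g * a).rank = a.rank := by
  unfold Matrix.rank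
  have e : (a * g * a).mulVecLin = (a * g).mulVecLin ∘ₗ a.mulVecLin := by
    rw [Matrix.mulVecLin_mul]
  rw [e, LinearMap.range_comp, ← LinearMap.range_domRestrict]
  apply LinearMap.finrank_range_of_inj
  rw [← LinearMap.ker_eq_bot, LinearMap.ker_eq_bot']
  rintro ⟨y, x, rfl⟩ hy
  simp only [LinearMap.domRestrict_apply, Matrix.mulVecLin_apply, ← Matrix.mulVec_mulVec] at hy
  ext1
  simpa using h x hy

end

theorem result (F : Type*) [Field F] [Finite F] (n : ℕ) (hn : 2 ≤ n) :
    ∃ G : Subgroup (GL (Fin n) F), IsCyclic G ∧ RankProperty G ∧ ¬ ContainsSL G := by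
  classical
  obtain ⟨p, hp⟩ := CharP.exists F
  have : Fact p.Prime := ⟨CharP.char_is_prime F p⟩
  have : NeZero n := ⟨by omega⟩
  let K := FiniteField.Extension F p n
  have hfr : Module.finrank F K = n := FiniteField.finrank_extension F p n
  let b : Module.Basis (Fin n) F K := Module.finBasisOfFinrankEq F K hfr
  let φ : Kˣ →* GL (Fin n) F := Units.map (Algebra.leftMulMatrix b).toRingHom.toMonoidHom
  refine ⟨φ.range, ?_, ?_, ?_⟩
  · exact isCyclic_of_surjective φ.rangeRestrict φ.rangeRestrict_surjective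
  · intro a _
    by_contra hcon
    push Not at hcon
    -- identification of `K` with column vectors
    have key : ∀ (g : Kˣ) (v : K), b.equivFun ((g : K) * v) =
        ((φ g : GL (Fin n) F) : Matrix (Fin n) (Fin n) F) *ᵥ b.equivFun v := by
      intro g v
      have := Algebra.leftMulMatrix_mulVec_repr b (g : K) v
      simpa [φ] using this.symm
    have hx : ∀ g : Kˣ, ∃ x : Fin n → F,
        a *ᵥ (((φ g : GL (Fin n) F) : Matrix (Fin n) (Fin n) F) *ᵥ (a *ᵥ x)) = 0
          ∧ a *ᵥ x ≠ 0 := by
      intro g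
      by_contra hno
      push Not at hno
      exact hcon (φ g) ⟨g, rfl⟩ (rank_mul_mul_eq a _ hno)
    choose x hx0 hxne using hx
    -- the image and the kernel of `a`
    let U : Submodule F (Fin n → F) := LinearMap.range a.mulVecLin
    let W : Submodule F (Fin n → F) := LinearMap.ker a.mulVecLin
    have hne : ∀ g : Kˣ, ((φ g : GL (Fin n) F) : Matrix (Fin n) (Fin n) F) *ᵥ (a *ᵥ x g) ≠ 0 := by
      intro g h0
      have h1 := key g (b.equivFun.symm (a *ᵥ x g))
      rw [LinearEquiv.apply_symm_apply, h0] at h1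
      have h2 : (g : K) * b.equivFun.symm (a *ᵥ x g) = 0 := by
        simpa using h1
      rcases mul_eq_zero.1 h2 with h3 | h3
      · exact g.ne_zero h3
      · exact hxne g ((LinearEquiv.map_eq_zero_iff b.equivFun.symm).1 h3)
    let f : Kˣ → {u : U // u ≠ 0} × {w : W // w ≠ 0} := fun g =>
      (⟨⟨a *ᵥ x g, ⟨x g, rfl⟩⟩, fun h => hxne g (congrArg Subtype.val h)⟩,
       ⟨⟨((φ g : GL (Fin n) F) : Matrix (Fin n) (Fin n) F) *ᵥ (a *ᵥ x g), hx0 g⟩,
        fun h => hne g (congrArg Subtype.val h)⟩)
    have hinj : Function.Injective f := by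
      intro g h hgh
      have h1 : a *ᵥ x g = a *ᵥ x h := congrArg (fun z => ((z.1 : U) : Fin n → F)) hgh
      have h2 : ((φ g : GL (Fin n) F) : Matrix (Fin n) (Fin n) F) *ᵥ (a *ᵥ x g) =
          ((φ h : GL (Fin n) F) : Matrix (Fin n) (Fin n) F) *ᵥ (a *ᵥ x h) :=
        congrArg (fun z => ((z.2 : W) : Fin n → F)) hgh
      have h3 := key g (b.equivFun.symm (a *ᵥ x g))
      have h4 := key h (b.equivFun.symm (a *ᵥ x h))
      rw [LinearEquiv.apply_symm_apply] at h3 h4
      rw [h2, ← h4] at h3
      have h5 := b.equivFun.injective h3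
      rw [← h1] at h5
      have h6 : b.equivFun.symm (a *ᵥ x g) ≠ 0 := by
        intro h
        exact hxne g ((LinearEquiv.map_eq_zero_iff b.equivFun.symm).1 h)
      exact Units.ext (mul_right_cancel₀ h6 h5)
    have : Fintype F := Fintype.ofFinite F
    have hcard : Nat.card Kˣ ≤ Nat.card ({u : U // u ≠ 0} × {w : W // w ≠ 0}) :=
      Nat.card_le_card_of_injective f hinj
    have hsub : ∀ S : Submodule F (Fin n → F),
        Nat.card {u : S // u ≠ 0} = Nat.card F ^ Module.finrank F S - 1 := by
      intro S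
      rw [← Module.natCard_eq_pow_finrank, Nat.card_eq_fintype_card, Nat.card_eq_fintype_card]
      rw [Fintype.card_subtype_compl]
      simp
    rw [Nat.card_prod, hsub, hsub, Nat.card_units, FiniteField.natCard_extension] at hcard
    have hrn : Module.finrank F U + Module.finrank F W = n := by
      simpa using LinearMap.finrank_range_add_finrank_ker a.mulVecLin
    have hq : 2 ≤ Nat.card F := Finite.one_lt_card
    set q := Nat.card F with hqdef
    set k := Module.finrank F U
    set l := Module.finrank F W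
    have h1 : 1 ≤ q ^ k := Nat.one_le_pow _ _ (by omega)
    have h2 : 1 ≤ q ^ l := Nat.one_le_pow _ _ (by omega)
    have h3 : q ^ n = q ^ k * q ^ l := by rw [← hrn, pow_add]
    have h4 : 2 ≤ q ^ n := le_trans hq (Nat.le_self_pow (by omega) q)
    rw [h3] at hcard h4
    obtain ⟨A, hA⟩ := Nat.exists_eq_add_of_le h1
    obtain ⟨B, hB⟩ := Nat.exists_eq_add_of_le h2
    rw [hA, hB] at hcard h4
    have e1 : (1 + A) * (1 + B) - 1 = A + B + A * B := by
      have : (1 + A) * (1 + B) = 1 + (A + B + A * B) := by ring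
      rw [this]; omega
    rw [e1] at hcard
    have e2 : (1 + A - 1) * (1 + B - 1) = A * B := by simp
    rw [e2] at hcard
    have hA0 : A = 0 := by omega
    have hB0 : B = 0 := by omega
    rw [hA0, hB0] at h4
    omega
  · -- `SL(n,F)` is not commutative
    intro hSL
    let i : Fin n := ⟨0, by omega⟩
    let j : Fin n := ⟨1, by omega⟩
    have hij : i ≠ j := by simp [i, j]
    let s : Matrix.SpecialLinearGroup (Fin n) F :=
      ⟨Matrix.transvection i j 1, Matrix.det_transvection_of_ne i j hij 1⟩
    let t : Matrix.SpecialLinearGroup (Fin n) F :=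
      ⟨Matrix.transvection j i 1, Matrix.det_transvection_of_ne j i hij.symm 1⟩
    obtain ⟨g, hg⟩ := hSL s
    obtain ⟨h, hh⟩ := hSL t
    have hcomm : (s : GL (Fin n) F) * (t : GL (Fin n) F) = (t : GL (Fin n) F) * s := by
      rw [← hg, ← hh, ← map_mul, ← map_mul, mul_comm]
    have h1 : Matrix.transvection i j (1 : F) * Matrix.transvection j i 1 =
        Matrix.transvection j i 1 * Matrix.transvection i j 1 :=
      congrArg (fun z : GL (Fin n) F => (z : Matrix (Fin n) (Fin n) F)) hcomm
    have h2 := congrFun (congrFun h1 i) i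
    simp [Matrix.transvection, Matrix.add_mul, Matrix.mul_add, hij.symm] at h2

end Pool.Agent.Results.MP_6598fd_al.SingerRankProperty
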